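import Mathlib

/-!
# Not every odd number is the gap from a power of two to the next odd semiprime

`a n` is the distance from `2 ^ n` to the smallest odd semiprime exceeding it. There is an infinite arithmetic
progression of odd numbers none of which is a value of `a`: the `34` congruences in `cs` cover every exponent `n`
at least twice, so that `2 ^ n + k` is divisible by two coprime numbers greater than one of the list and is larger
than their product.
-/

set_option autoImplicit false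

namespace Pool.Agent.Results.MP_c49196_nt.TwofoldCovering

/-- A semiprime: a product of two primes, not necessarily distinct. -/
def IsSemiprime (s : ℕ) : Prop := ∃ p q : ℕ, p.Prime ∧ q.Prime ∧ s = p * q

/-- The distance from `2 ^ n` to the smallest odd semiprime exceeding it. -/
noncomputable def a (n : ℕ) : ℕ := sInf {s : ℕ | 2 ^ n < s ∧ Odd s ∧ IsSemiprime s} - 2 ^ n

/-- The set defining `a n` is not empty. -/
lemma set_nonempty (n : ℕ) : {s : ℕ | 2 ^ n < s ∧ Odd s ∧ IsSemiprime s}.Nonempty := by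
  obtain ⟨p, hp, hpp⟩ := Nat.exists_infinite_primes (2 ^ n + 3)
  refine ⟨3 * p, ?_, ?_, 3, p, Nat.prime_three, hpp, rfl⟩
  · show 2 ^ n < 3 * p
    have h1 : 1 ≤ 2 ^ n := Nat.one_le_two_pow
    omega
  · have h1 : 1 ≤ 2 ^ n := Nat.one_le_two_pow
    have h2 : p ≠ 2 := by omega
    exact (by decide : Odd 3).mul (hpp.odd_of_ne_two h2)

/-- If `a n = k` then `2 ^ n + k` is an odd semiprime. -/
lemma semiprime_of_a {n k : ℕ} (h : a n = k) : IsSemiprime (2 ^ n + k) := by
  have h1 := Nat.sInf_mem (set_nonempty n)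
  have h2 : 2 ^ n + k = sInf {s : ℕ | 2 ^ n < s ∧ Odd s ∧ IsSemiprime s} := by
    have h3 : 2 ^ n < sInf {s : ℕ | 2 ^ n < s ∧ Odd s ∧ IsSemiprime s} := h1.1
    unfold a at h
    omega
  rw [h2]
  exact h1.2.2

/-- The congruences: `(c, m, r)` means that `c` divides `2 ^ m - 1`, and it will divide `2 ^ n + k` for all
`n ≡ r (mod m)`. -/
def cs : List (ℕ × ℕ × ℕ) :=
  [(3, 2, 1),
   (7, 3, 0),
   (5, 4, 2),
   (31, 5, 0),
   (17, 8, 0),
   (73, 9, 1),
   (11, 10, 2),
   (13, 12, 11),
   (151, 15, 14),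
   (257, 16, 12),
   (19, 18, 13),
   (41, 20, 8),
   (241, 24, 5),
   (331, 30, 26),
   (37, 36, 7),
   (109, 36, 22),
   (61681, 40, 36),
   (631, 45, 16),
   (23311, 45, 34),
   (97, 48, 17),
   (673, 48, 20),
   (61, 60, 58),
   (1321, 60, 38),
   (433, 72, 40),
   (38737, 72, 4),
   (4278255361, 80, 4),
   (18837001, 90, 7),
   (4562284561, 120, 113),
   (577, 144, 89),
   (487824887233, 144, 52),
   (181, 180, 41),
   (54001, 180, 133),
   (29247661, 180, 101),
   (18518800563924107521, 240, 137)]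

/-- The first term of the progression. -/
def K : ℕ :=
  115361089935225577570278852642716372766411480075330591452621381964120769155746380996523384651666085906876461316504870889812260011

/-- The common difference: twice the product of the moduli `c`. -/
def D : ℕ :=
  492798715173177119885901399042849403475684984948831473685508976648557460076437869305797329808968298614964526862895287778555199670

lemma cs_check : ∀ x ∈ cs, 1 < x.1 ∧ x.1 ≤ 10 ^ 20 ∧ 2 ^ x.2.1 % x.1 = 1 ∧ (2 ^ x.2.2 + K) % x.1 = 0 ∧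
    D % x.1 = 0 ∧ 720 % x.2.1 = 0 := by
  decide +kernel

lemma cs_coprime : cs.Pairwise (fun x y => Nat.Coprime x.1 y.1) := by
  decide +kernel

lemma cs_cover : ∀ t < 720, 2 ≤ (cs.filter (fun x => t % x.2.1 = x.2.2)).length := by
  decide +kernel

lemma K_odd : K % 2 = 1 := by decide +kernel

lemma D_even : D % 2 = 0 := by decide +kernel

lemma K_large : 10 ^ 40 < K := by decide +kernel

lemma dvd_of_mem {x : ℕ × ℕ × ℕ} (hx : x ∈ cs) (n j : ℕ) (hn : n % x.2.1 = x.2.2) :
    x.1 ∣ 2 ^ n + (K + D * j) := by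
  obtain ⟨_, _, h2, h3, h4, _⟩ := cs_check x hx
  have e1 : 2 ^ n ≡ 2 ^ x.2.2 [MOD x.1] := by
    conv_lhs => rw [← Nat.div_add_mod n x.2.1, pow_add, pow_mul, hn]
    have e2 : (2 ^ x.2.1) ^ (n / x.2.1) ≡ 1 ^ (n / x.2.1) [MOD x.1] := by
      apply Nat.ModEq.pow
      unfold Nat.ModEq
      rw [h2]
      obtain ⟨h1, _⟩ := cs_check x hx
      exact (Nat.mod_eq_of_lt h1).symm
    have e3 := e2.mul_right (2 ^ x.2.2)
    rwa [one_pow, one_mul] at e3
  have e4 : 2 ^ n + (K + D * j) ≡ 2 ^ x.2.2 + (K + 0) [MOD x.1] := by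
    apply Nat.ModEq.add e1
    apply Nat.ModEq.add_left
    exact (Nat.modEq_zero_iff_dvd.2 ((Nat.dvd_of_mod_eq_zero h4).mul_right j))
  rw [add_zero] at e4
  exact (Nat.modEq_zero_iff_dvd.1 (e4.trans h3))

lemma two_dvd (n : ℕ) : ∃ c d : ℕ, 1 < c ∧ 1 < d ∧ c ≤ 10 ^ 20 ∧ d ≤ 10 ^ 20 ∧ Nat.Coprime c d ∧
    ∀ j, c ∣ 2 ^ n + (K + D * j) ∧ d ∣ 2 ^ n + (K + D * j) := by
  have h := cs_cover (n % 720) (Nat.mod_lt _ (by norm_num))
  have hp := cs_coprime.filter (fun x => n % 720 % x.2.1 = x.2.2)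
  match hl : cs.filter (fun x => n % 720 % x.2.1 = x.2.2) with
  | [] => rw [hl] at h; simp at h
  | [x] => rw [hl] at h; simp at h
  | x :: y :: l =>
    rw [hl] at hp
    have hx : x ∈ cs.filter (fun x => n % 720 % x.2.1 = x.2.2) := by rw [hl]; simp
    have hy : y ∈ cs.filter (fun x => n % 720 % x.2.1 = x.2.2) := by rw [hl]; simp
    rw [List.mem_filter] at hx hy
    have key : ∀ z : ℕ × ℕ × ℕ, z ∈ cs ∧ decide (n % 720 % z.2.1 = z.2.2) = true → n % z.2.1 = z.2.2 := by
      intro z hz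
      have h1 := (cs_check z hz.1).2.2.2.2.2
      have h2 := of_decide_eq_true hz.2
      rw [← h2, Nat.mod_mod_of_dvd _ (Nat.dvd_of_mod_eq_zero h1)]
    have hc : Nat.Coprime x.1 y.1 := (List.pairwise_cons.1 hp).1 y (by simp)
    exact ⟨x.1, y.1, (cs_check x hx.1).1, (cs_check y hy.1).1, (cs_check x hx.1).2.1,
      (cs_check y hy.1).2.1, hc, fun j => ⟨dvd_of_mem hx.1 n j (key x hx), dvd_of_mem hy.1 n j (key y hy)⟩⟩

lemma not_semiprime (n j : ℕ) : ¬ IsSemiprime (2 ^ n + (K + D * j)) := by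
  rintro ⟨p, q, hp, hq, hpq⟩
  obtain ⟨c, d, hc, hd, hc2, hd2, hcd, hdvd⟩ := two_dvd n
  obtain ⟨t, ht⟩ := hcd.mul_dvd_of_dvd_of_dvd (hdvd j).1 (hdvd j).2
  have hlarge : c * d < 2 ^ n + (K + D * j) := by
    have h1 : c * d ≤ 10 ^ 20 * 10 ^ 20 := Nat.mul_le_mul hc2 hd2
    have h2 := K_large
    have h3 : K ≤ 2 ^ n + (K + D * j) := le_trans (Nat.le_add_right _ _) (Nat.le_add_left _ _)
    have h4 : (10 : ℕ) ^ 20 * 10 ^ 20 = 10 ^ 40 := by norm_num
    omega
  have ht1 : 1 < t := by
    by_contra hcon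
    have : t = 0 ∨ t = 1 := by omega
    rcases this with rfl | rfl
    · rw [mul_zero] at ht
      omega
    · rw [mul_one] at ht
      omega
  have hc0 : c ≠ 0 := by omega
  have hd0 : d ≠ 0 := by omega
  have ht0 : t ≠ 0 := by omega
  have key : ∀ m : ℕ, 1 < m → 1 ≤ ArithmeticFunction.cardFactors m := by
    intro m hm
    rcases Nat.eq_zero_or_pos (ArithmeticFunction.cardFactors m) with h0 | h0
    · rw [ArithmeticFunction.cardFactors_eq_zero_iff_eq_zero_or_one] at h0
      omega
    · exact h0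
  have h1 : ArithmeticFunction.cardFactors (c * d * t) = ArithmeticFunction.cardFactors (p * q) := by
    rw [← ht, hpq]
  rw [ArithmeticFunction.cardFactors_mul (Nat.mul_ne_zero hc0 hd0) ht0,
    ArithmeticFunction.cardFactors_mul hc0 hd0, ArithmeticFunction.cardFactors_mul hp.ne_zero hq.ne_zero,
    ArithmeticFunction.cardFactors_apply_prime hp, ArithmeticFunction.cardFactors_apply_prime hq] at h1
  have := key c hc
  have := key d hd
  have := key t ht1
  omega

/-- There is an infinite arithmetic progression of odd numbers, none of which is a value of `a`. In particular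
not every odd positive integer is a value of `a`. -/
theorem result : ∃ K D : ℕ, Odd K ∧ 0 < D ∧ Even D ∧ ∀ j n : ℕ, a n ≠ K + D * j := by
  refine ⟨K, D, Nat.odd_iff.2 K_odd, ?_, Nat.even_iff.2 D_even, fun j n h => ?_⟩
  · decide +kernel
  · exact not_semiprime n j (semiprime_of_a h)

end Pool.Agent.Results.MP_c49196_nt.TwofoldCovering
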